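import Pool.Agent.H.MP_c9b87f_lc.C

namespace Pool.Agent.Results.MP_c9b87f_lc.Dichotomy

open Filter Topology Set Pool.Agent.H.MP_c9b87f_lc

theorem result (X : Type) [TopologicalSpace X] [PolishSpace X] (I : Set (Set ℕ))
    (h1 : ∀ A ∈ I, ∀ B : Set ℕ, B ⊆ A → B ∈ I) (h2 : ∀ A ∈ I, ∀ B ∈ I, A ∪ B ∈ I)
    (h3 : ∀ A : Set ℕ, A.Finite → A ∈ I) (h4 : (univ : Set ℕ) ∉ I)
    (h5 : ∃ G : ℕ → ℕ → Set (ℕ → Bool), (∀ i j, IsGδ (G i j)) ∧
      {f : ℕ → Bool | {n : ℕ | f n = true} ∈ I} = ⋂ i, ⋃ j, G i j)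
    (L : Set (Set X)) (hL : L = {E | E = ∅ ∨ ∃ x : ℕ → X,
      E = {l | ∃ S : Set ℕ, S ∉ I ∧ Tendsto x (atTop ⊓ 𝓟 S) (𝓝 l)}}) :
    L = {E | IsClosed E} ∨
      L = {E | ∃ D : ℕ → Set X, (∀ j, IsClosed (D j)) ∧ E = ⋃ j, D j} := by
  obtain ⟨G, c1, c2⟩ := h5
  letI := TopologicalSpace.upgradeIsCompletelyMetrizable X
  choose O o1 o2 using fun i j => (c1 i j).eq_iInter_nat
  have h : Id4 I fun i j l => (O i j l)ᶜ := ⟨h1, h2, h3, fun i j l => (o1 i j l).isClosed_compl,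
    fun f => by
      have := Set.ext_iff.1 c2 f
      simp only [mem_ofPred_eq, o2, mem_iInter, mem_iUnion] at this
      simp only [this, not_forall, not_exists, mem_compl_iff]⟩
  subst hL
  by_cases c : ∀ x : ℕ → X, IsClosed (Lam I x)
  · refine .inl (Set.ext fun E => ⟨?_, fun hE => E.eq_empty_or_nonempty.imp_right fun n => ?_⟩)
    · rintro (rfl | ⟨x, rfl⟩)
      exacts [isClosed_empty, c x]
    · obtain ⟨y, y1, y2⟩ := real h h4 n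
      refine ⟨y, subset_antisymm (fun η hη => (y2 η hη).imp fun _ h => h.2) fun ζ ⟨S, s1, s2⟩ => ?_⟩
      by_contra z
      exact s1 (h3 _ ((fin_of s2 hE z).subset fun a ha => ⟨ha, y1 a⟩))
  · obtain ⟨x, hx⟩ := not_forall.1 c
    refine .inr (Set.ext fun E => ⟨?_, ?_⟩)
    · rintro (rfl | ⟨x, rfl⟩)
      exacts [⟨fun _ => ∅, fun _ => isClosed_empty, by simp⟩, fsigma h x]
    · rintro ⟨D, hD, rfl⟩
      exact (eq_empty_or_nonempty _).imp_right fun ⟨e, he⟩ => all h hx hD he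

end Pool.Agent.Results.MP_c9b87f_lc.Dichotomy
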